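import Pool.Agent.L0h58.HY.Stm

/-!
# Project HY (helper58), module RESB
-/

set_option autoImplicit false

namespace Pool.Agent.L0h93.HY

open Finset Pool.Agent.L0h32.LT Pool.Agent.L0h58.HN Pool.Agent.L0h58.HM Pool.Agent.L0h58.HX
  Pool.Agent.L0h58.HY

/-- The restricted program. -/
def restrP {N nn : ℕ} (hn : 0 < nn) (src : ℕ → Option (Fin nn)) (cst : ℕ → Bool) {V : Type}
    (P : BP N V) : BP nn V where
  start := P.start
  var v := match src (P.var v) with
    | some j => j
    | none => ⟨0, hn⟩
  next v b := match src (P.var v) with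
    | some _ => P.next v b
    | none => P.next v (cst (P.var v))
  out := P.out

theorem restrP_step {N nn : ℕ} (hn : 0 < nn) (src : ℕ → Option (Fin nn)) (cst : ℕ → Bool)
    {V : Type} (P : BP N V) (x : Inp nn) :
    (restrP hn src cst P).step x = P.step (Pool.Agent.L0h58.HX.ext src cst x) := by
  funext v
  unfold BP.step restrP Pool.Agent.L0h58.HX.ext
  by_cases hv : (P.out v).isSome = true
  · simp only [hv, if_true]
  · simp only [hv]
    cases src (P.var v) with
    | some j => rfl
    | none => rfl

open Classical in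
theorem t_RESB : S_RESB := by
  intro N nn T L δ ε src cst f h hn hf hb Ω _ p V _ P U hp0 hp1 hV a b hb0 h1 h2
  have e : ∀ y : Inp nn, (∑ ω, if ((restrP hn src cst (P ω)).step y)^[T]
        (restrP hn src cst (P ω)).start ∈ U ω then p ω else 0) =
      ∑ ω, if ((P ω).step (Pool.Agent.L0h58.HX.ext src cst y))^[T] (P ω).start ∈ U ω then p ω else 0 := by
    intro y
    refine Finset.sum_congr rfl fun ω _ => ?_
    rw [restrP_step]
    rfl
  refine hb Ω p V (fun ω => restrP hn src cst (P ω)) U hp0 hp1 hV a b hb0 ?_ ?_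
  · intro y hy
    rw [e]
    exact h1 _ (by rw [hf]; exact hy)
  · intro y hy
    rw [e]
    exact h2 _ (by rw [hf]; exact hy)

end Pool.Agent.L0h93.HY
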